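import Pool.Graph.R_seed8.Helper660.K3
import Pool.Graph.R_seed8.Helper660.Upper

/-! Blow-up of hypergraphs in which every tight component has a common vertex. -/

set_option autoImplicit false

namespace Pool.Agent.KS6_88.TP

open PiNat Classical Pool.Agent.Helper660.TP

/-- hypergraphs with a corner function and small independent sets -/
def CornerData (k : ℕ) (c0 : ℝ) (T : ℕ) : Prop :=
  ∃ (V : Type) (Cor : Finset V → V → Prop), (∀ e c, Cor e c → c ∈ e) ∧
    (∀ e e' c c' p p', Cor e c → Cor e' c' → p ∈ e → p' ∈ e' → e.erase p = e'.erase p' →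
      c = c') ∧
    ∀ t : ℕ, T ≤ t → ∃ X : Finset V, c0 * (t : ℝ) ^ (k - 1) ≤ X.card ∧
      ∀ S ⊆ X, S.card = t → ∃ e ⊆ S, e.card = k ∧ ∃ c, Cor e c

theorem data_three : ∃ c0 : ℝ, 0 < c0 ∧ ∃ T : ℕ, CornerData 3 c0 T := by
  refine ⟨1 / 16, by norm_num, 4, ℕ × ℕ, LCor, ?_, ?_, ?_⟩
  · rintro e c ⟨x, y, -, -, rfl⟩
    exact Finset.mem_insert_self _ _
  · intro e e' c c' p p' h h' hp hp' heq
    refine LCor_unique e e' c c' p p' h h' hp hp' ?_
    ext z
    have hz := Finset.ext_iff.1 heq z
    simpa only [Finset.mem_erase] using hz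
  · intro t ht
    refine ⟨Finset.range ((t - 1) / 2) ×ˢ Finset.range ((t - 1) / 2), ?_, ?_⟩
    · rw [Finset.card_product, Finset.card_range]
      have h1 : t ≤ 4 * ((t - 1) / 2) := by omega
      have h2 : (t : ℝ) ≤ 4 * (((t - 1) / 2 : ℕ) : ℝ) := by exact_mod_cast h1
      have h3 : (0 : ℝ) ≤ t := Nat.cast_nonneg t
      push_cast
      have h5 := mul_self_le_mul_self h3 h2
      have h6 : (t : ℝ) ^ (3 - 1) = t * t := by norm_num [pow_two]
      nlinarith
    · intro S hS hSc
      exact exists_LCor _ S hS (by omega)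

theorem data_ge4 (d : ℕ) (hd : 3 ≤ d) : ∃ c0 : ℝ, 0 < c0 ∧ ∃ T : ℕ, CornerData (d + 1) c0 T := by
  obtain ⟨n, p, hn, hnp, hp, hrule⟩ := exists_rule d hd
  have : Fact p.Prime := ⟨hp⟩
  have hcB : Fintype.card (Fin d → ZMod p) = p ^ d := by
    rw [Fintype.card_fun, ZMod.card, Fintype.card_fin]
  obtain ⟨χ, γ, hOK⟩ := hrule ((Fin d → ZMod p) × (Fin d → ZMod p)) (by
    rw [Fintype.card_prod, hcB]; ring)
  set enc : (Fin d → ZMod p) → ℕ := fun b => (Fintype.equivFin (Fin d → ZMod p) b).val with henc
  have hencinj : Function.Injective enc := by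
    intro a b hab
    exact (Fintype.equivFin _).injective (Fin.ext hab)
  set Cor : Finset (ℕ → (Fin d → ZMod p)) → (ℕ → (Fin d → ZMod p)) → Prop := fun e c =>
    ∃ f x u1 u2 u3 i ρ, IsStar (rs d n p) d enc (fun a b => (χ (a, b)).val)
      (fun a b => γ (a, b)) c f x u1 u2 u3 i ρ ∧ e = insert c f with hCor
  set K0 := n * (p ^ d) ^ n with hK0
  have hp1 : 1 < p := hp.one_lt
  have hK0pos : 0 < K0 := by positivity
  refine ⟨1 / ((K0 * p : ℕ) : ℝ) ^ d, by positivity, K0 + 1, _, Cor, ?_, ?_, ?_⟩
  · rintro e c ⟨f, x, u1, u2, u3, i, ρ, σ, rfl⟩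
    exact Finset.mem_insert_self _ _
  · rintro e e' c c' q q' ⟨f, x, u1, u2, u3, i, ρ, σ, rfl⟩ ⟨f', x', u1', u2', u3', i', ρ', σ', rfl⟩
      hq hq' heq
    refine corner_unique (rs d n p) hd (fun b b' T hT h => rs_mds hp hnp b b' T hT h) hencinj
      σ σ' (p := q) (p' := q') (g := (insert c f).erase q) ?_ ?_ ?_
    · rw [Finset.card_erase_of_mem hq, Finset.card_insert_of_notMem σ.hc, σ.hcard]; rfl
    · intro z
      rw [Finset.mem_erase, Finset.mem_insert]
      tauto
    · intro z
      rw [heq, Finset.mem_erase, Finset.mem_insert]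
      tauto
  · intro t ht
    have hex : ∃ m, t ≤ K0 * p ^ (m + 1) := by
      refine ⟨t, ?_⟩
      have h1 : t + 1 < p ^ (t + 1) := Nat.lt_pow_self hp1
      calc t ≤ p ^ (t + 1) := by omega
        _ ≤ K0 * p ^ (t + 1) := Nat.le_mul_of_pos_left _ hK0pos
    set m := Nat.find hex with hm
    have hm1 : t ≤ K0 * p ^ (m + 1) := Nat.find_spec hex
    have hm2 : K0 * p ^ m < t := by
      rcases Nat.eq_zero_or_pos m with h0 | hpos
      · rw [h0]; simp; omega
      · have := Nat.find_min hex (m := m - 1) (by omega)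
        rw [not_le] at this
        have e : m - 1 + 1 = m := by omega
        rwa [e] at this
    refine ⟨Finset.univ.image (ext (B := Fin d → ZMod p) m), ?_, ?_⟩
    · rw [Finset.card_image_of_injective _ (ext_inj m), Finset.card_univ, Fintype.card_fun, hcB,
        Fintype.card_fin, Nat.add_sub_cancel]
      rw [one_div, inv_mul_le_iff₀ (by positivity)]
      have h3 : t ^ d ≤ (K0 * p) ^ d * (p ^ d) ^ m := by
        calc t ^ d ≤ (K0 * p ^ (m + 1)) ^ d := Nat.pow_le_pow_left hm1 d
          _ = (K0 * p) ^ d * (p ^ d) ^ m := by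
            rw [pow_succ, ← pow_mul, mul_comm d m, pow_mul, ← mul_pow]
            congr 1; ring
      exact_mod_cast h3
    · intro S hS hSc
      have hagree : ∀ a ∈ S, ∀ b ∈ S, ∀ v, m ≤ v → a v = b v := by
        intro a ha b hb v hv
        obtain ⟨ga, -, rfl⟩ := Finset.mem_image.1 (hS ha)
        obtain ⟨gb, -, rfl⟩ := Finset.mem_image.1 (hS hb)
        unfold ext
        rw [dif_neg (by omega), dif_neg (by omega)]
      obtain ⟨c, f, x, u1, u2, u3, i, ρ, σ, hc, hf⟩ := exists_star hd hn hnp hp χ γ hOK enc S m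
        hagree (by
          rw [hSc]
          calc n * ((p ^ d) ^ n * p ^ m) = K0 * p ^ m := by rw [hK0]; ring
            _ < t := hm2)
      refine ⟨insert c f, ?_, ?_, c, f, x, u1, u2, u3, i, ρ, σ, rfl⟩
      · intro z hz
        rcases Finset.mem_insert.1 hz with rfl | hz
        · exact hc
        · exact hf hz
      · rw [Finset.card_insert_of_notMem σ.hc, σ.hcard]

theorem data (k : ℕ) (hk : 3 ≤ k) : ∃ c0 : ℝ, 0 < c0 ∧ ∃ T : ℕ, CornerData k c0 T := by
  rcases Nat.lt_or_ge k 4 with h | h
  · have : k = 3 := by omega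
    subst this
    exact data_three
  · obtain ⟨d, rfl⟩ : ∃ d, k = d + 1 := ⟨k - 1, by omega⟩
    exact data_ge4 d (by omega)

/-- the window of `k` consecutive indices starting at `i` -/
def win (s k i : ℕ) : Finset (Fin (s + k - 1)) :=
  Finset.univ.filter (fun j => i ≤ j.val ∧ j.val < i + k)

theorem mem_win {s k i : ℕ} {j : Fin (s + k - 1)} : j ∈ win s k i ↔ i ≤ j.val ∧ j.val < i + k := by
  unfold win; simp

/-- edges of the blow-up -/
def BE {V : Type} (Cor : Finset V → V → Prop) (e : Finset (V × ℕ)) : Prop :=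
  (∃ v, ∀ x ∈ e, x.1 = v) ∨ ((∃ c, Cor (e.image Prod.fst) c) ∧ Set.InjOn Prod.fst (e : Set (V × ℕ)))

theorem no_path_blow {V : Type} (Cor : Finset V → V → Prop) (h1 : ∀ e c, Cor e c → c ∈ e)
    (h2 : ∀ e e' c c' p p', Cor e c → Cor e' c' → p ∈ e → p' ∈ e' → e.erase p = e'.erase p' →
      c = c')
    {k s b : ℕ} (hk : 3 ≤ k) (hs : 1 ≤ s) (hb : b = (s - 1) / k) (w : Fin (s + k - 1) → V × ℕ)
    (hw : Function.Injective w) (hwb : ∀ j, (w j).2 < b)
    (h3 : ∀ i : ℕ, i < s → BE Cor ((win s k i).image w)) : False := by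
  have hbs : b < s := by
    rw [hb]
    calc (s - 1) / k ≤ s - 1 := Nat.div_le_self _ _
      _ < s := by omega
  by_cases h0 : ∃ v, ∀ x ∈ (win s k 0).image w, x.1 = v
  · -- everything in one class
    obtain ⟨v, hv⟩ := h0
    have hall : ∀ i, i < s → ∀ j ∈ win s k i, (w j).1 = v := by
      intro i
      induction i with
      | zero =>
        intro _ j hj
        exact hv _ (Finset.mem_image_of_mem _ hj)
      | succ i ih =>
        intro hi
        have hprev := ih (by omega)
        have a1 : i + 1 < s + k - 1 := by omega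
        have a2 : i + 2 < s + k - 1 := by omega
        have m1 : (⟨i + 1, a1⟩ : Fin (s + k - 1)) ∈ win s k (i + 1) := mem_win.mpr ⟨by simp, by simp; omega⟩
        have m2 : (⟨i + 2, a2⟩ : Fin (s + k - 1)) ∈ win s k (i + 1) := mem_win.mpr ⟨by simp, by simp; omega⟩
        have p1 := hprev ⟨i + 1, a1⟩ (mem_win.mpr ⟨by simp, by simp; omega⟩)
        have p2 := hprev ⟨i + 2, a2⟩ (mem_win.mpr ⟨by simp, by simp; omega⟩)
        rcases h3 (i + 1) hi with ⟨v', hv'⟩ | ⟨_, hinj⟩
        · intro j hj
          have e1 := hv' _ (Finset.mem_image_of_mem _ m1)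
          rw [p1] at e1
          rw [e1]
          exact hv' _ (Finset.mem_image_of_mem _ hj)
        · exfalso
          have := hinj (Finset.mem_coe.mpr (Finset.mem_image_of_mem _ m1))
            (Finset.mem_coe.mpr (Finset.mem_image_of_mem _ m2)) (p1.trans p2.symm)
          have := hw this
          rw [Fin.mk.injEq] at this
          omega
    have hcl : ∀ j, (w j).1 = v := by
      intro j
      rcases Nat.lt_or_ge j.val s with h | h
      · exact hall j.val h j (mem_win.mpr ⟨le_rfl, by omega⟩)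
      · have := j.isLt
        exact hall (s - 1) (by omega) j (mem_win.mpr ⟨by omega, by omega⟩)
    have hc := Finset.card_le_card_of_injOn (s := (Finset.univ : Finset (Fin (s + k - 1))))
      (t := Finset.range b) (fun j => (w j).2) (fun j _ => by simpa using hwb j)
      (fun i _ j _ hij => hw (Prod.ext ((hcl i).trans (hcl j).symm) hij))
    rw [Finset.card_univ, Fintype.card_fin, Finset.card_range] at hc
    omega
  · -- transversal edges with a common corner class
    have hall : ∀ i, i < s → (∃ c, Cor (((win s k i).image w).image Prod.fst) c) ∧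
        Set.InjOn Prod.fst (((win s k i).image w : Finset (V × ℕ)) : Set (V × ℕ)) := by
      intro i
      induction i with
      | zero =>
        intro _
        rcases h3 0 (by omega) with h | h
        · exact absurd h h0
        · exact h
      | succ i ih =>
        intro hi
        obtain ⟨_, hprev⟩ := ih (by omega)
        rcases h3 (i + 1) hi with ⟨v', hv'⟩ | h
        · exfalso
          have a1 : i + 1 < s + k - 1 := by omega
          have a2 : i + 2 < s + k - 1 := by omega
          have m1 : (⟨i + 1, a1⟩ : Fin (s + k - 1)) ∈ win s k (i + 1) :=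
            mem_win.mpr ⟨by simp, by simp; omega⟩
          have m2 : (⟨i + 2, a2⟩ : Fin (s + k - 1)) ∈ win s k (i + 1) :=
            mem_win.mpr ⟨by simp, by simp; omega⟩
          have n1 : (⟨i + 1, a1⟩ : Fin (s + k - 1)) ∈ win s k i :=
            mem_win.mpr ⟨by simp, by simp; omega⟩
          have n2 : (⟨i + 2, a2⟩ : Fin (s + k - 1)) ∈ win s k i :=
            mem_win.mpr ⟨by simp, by simp; omega⟩
          have e1 := hv' _ (Finset.mem_image_of_mem _ m1)
          have e2 := hv' _ (Finset.mem_image_of_mem _ m2)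
          have := hprev (Finset.mem_coe.mpr (Finset.mem_image_of_mem _ n1))
            (Finset.mem_coe.mpr (Finset.mem_image_of_mem _ n2)) (e1.trans e2.symm)
          have := hw this
          rw [Fin.mk.injEq] at this
          omega
        · exact h
    have hc : ∀ i : Fin s, ∃ c, Cor (((win s k i).image w).image Prod.fst) c :=
      fun i => (hall i.val i.isLt).1
    choose c hc using hc
    have step : ∀ i : ℕ, ∀ hi : i + 1 < s, c ⟨i, by omega⟩ = c ⟨i + 1, hi⟩ := by
      intro i hi
      have ha : i < s + k - 1 := by omega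
      have hb' : i + k < s + k - 1 := by omega
      have w1 : (⟨i, ha⟩ : Fin (s + k - 1)) ∈ win s k i := mem_win.mpr ⟨by simp, by simp; omega⟩
      have w2 : (⟨i + k, hb'⟩ : Fin (s + k - 1)) ∈ win s k (i + 1) :=
        mem_win.mpr ⟨by show i + 1 ≤ i + k; omega, by show i + k < i + 1 + k; omega⟩
      apply h2 _ _ _ _ (w ⟨i, ha⟩).1 (w ⟨i + k, hb'⟩).1 (hc ⟨i, by omega⟩) (hc ⟨i + 1, hi⟩)
      · exact Finset.mem_image_of_mem _ (Finset.mem_image_of_mem _ w1)
      · exact Finset.mem_image_of_mem _ (Finset.mem_image_of_mem _ w2)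
      · have i1 := (hall i (by omega)).2
        have i2 := (hall (i + 1) hi).2
        ext z
        simp only [Finset.mem_erase, Finset.mem_image, ne_eq]
        constructor
        · rintro ⟨hz, x, ⟨j, hj, rfl⟩, rfl⟩
          have hj' := mem_win.mp hj
          have hne : j.val ≠ i := by
            intro h
            apply hz
            have : j = ⟨i, ha⟩ := Fin.ext h
            rw [this]
          have hj2 : j ∈ win s k (i + 1) := mem_win.mpr ⟨by omega, by omega⟩
          refine ⟨fun h => ?_, _, ⟨j, hj2, rfl⟩, rfl⟩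
          have := i2 (Finset.mem_coe.mpr (Finset.mem_image_of_mem _ hj2))
            (Finset.mem_coe.mpr (Finset.mem_image_of_mem _ w2)) h
          have := hw this
          rw [Fin.ext_iff] at this
          simp at this
          omega
        · rintro ⟨hz, x, ⟨j, hj, rfl⟩, rfl⟩
          have hj' := mem_win.mp hj
          have hne : j.val ≠ i + k := by
            intro h
            apply hz
            have : j = ⟨i + k, hb'⟩ := Fin.ext h
            rw [this]
          have hj2 : j ∈ win s k i := mem_win.mpr ⟨by omega, by omega⟩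
          refine ⟨fun h => ?_, _, ⟨j, hj2, rfl⟩, rfl⟩
          have := i1 (Finset.mem_coe.mpr (Finset.mem_image_of_mem _ hj2))
            (Finset.mem_coe.mpr (Finset.mem_image_of_mem _ w1)) h
          have := hw this
          rw [Fin.ext_iff] at this
          simp at this
          omega
    have all : ∀ i : ℕ, ∀ hi : i < s, c ⟨i, hi⟩ = c ⟨0, by omega⟩ := by
      intro i
      induction i with
      | zero => intro _; rfl
      | succ i ih =>
        intro hi
        rw [← step i hi]
        exact ih (by omega)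
    -- one vertex of the corner class in every window
    have hq : ∀ q : Fin (b + 1), ∃ j : Fin (s + k - 1), q.val * k ≤ j.val ∧ j.val < q.val * k + k ∧
        (w j).1 = c ⟨0, by omega⟩ := by
      intro q
      have hqk : q.val * k < s := by
        have h5 : q.val ≤ (s - 1) / k := by have := q.isLt; omega
        have h6 := (Nat.le_div_iff_mul_le (by omega : 0 < k)).mp h5
        omega
      have hm := h1 _ _ (hc ⟨q.val * k, hqk⟩)
      rw [all _ hqk] at hm
      obtain ⟨x, hx, hx2⟩ := Finset.mem_image.mp hm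
      obtain ⟨j, hj, rfl⟩ := Finset.mem_image.mp hx
      have hj' := mem_win.mp hj
      exact ⟨j, hj'.1, hj'.2, hx2⟩
    choose J hJ1 hJ2 hJ3 using hq
    have hcard := Finset.card_le_card_of_injOn (s := (Finset.univ : Finset (Fin (b + 1))))
      (t := Finset.range b) (fun q => (w (J q)).2) (fun q _ => by simpa using hwb (J q))
      (fun q _ q' _ hqq => by
        have e := hw (Prod.ext ((hJ3 q).trans (hJ3 q').symm) hqq)
        have e1 := hJ1 q
        have e2 := hJ2 q
        have e3 := hJ1 q'
        have e4 := hJ2 q'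
        rw [e] at e1 e2
        ext
        have l1 : q.val * k < (q'.val + 1) * k := by rw [add_mul, one_mul]; omega
        have l2 : q'.val * k < (q.val + 1) * k := by rw [add_mul, one_mul]; omega
        have := lt_of_mul_lt_mul_right l1 (Nat.zero_le k)
        have := lt_of_mul_lt_mul_right l2 (Nat.zero_le k)
        omega)
    rw [Finset.card_univ, Fintype.card_fin, Finset.card_range] at hcard
    omega

theorem indep_blow {V : Type} (Cor : Finset V → V → Prop) {k t t0 : ℕ} (hk : 3 ≤ k)
    (ht : (k - 1) * (t0 - 1) < t) (ht0 : 1 ≤ t0) (X : Finset V)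
    (hX : ∀ S ⊆ X, S.card = t0 → ∃ e ⊆ S, e.card = k ∧ ∃ c, Cor e c)
    (S : Finset (V × ℕ)) (hS : ∀ x ∈ S, x.1 ∈ X) (hSc : S.card = t) :
    ∃ e ⊆ S, e.card = k ∧ BE Cor e := by
  by_cases h : ∃ v, k ≤ (S.filter (fun x => x.1 = v)).card
  · obtain ⟨v, hv⟩ := h
    obtain ⟨e, he, hec⟩ := Finset.exists_subset_card_eq hv
    exact ⟨e, he.trans (Finset.filter_subset _ _), hec,
      Or.inl ⟨v, fun x hx => (Finset.mem_filter.mp (he hx)).2⟩⟩
  · push Not at h
    have h4 : S.card ≤ (k - 1) * (S.image Prod.fst).card := by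
      have := Finset.card_le_mul_card_image (f := Prod.fst) S (k - 1) (fun v _ => by
        have := h v
        omega)
      exact this
    have h5 : t0 ≤ (S.image Prod.fst).card := by
      rw [hSc] at h4
      have := lt_of_mul_lt_mul_left (ht.trans_le h4) (Nat.zero_le _)
      omega
    obtain ⟨S0, hS0, hS0c⟩ := Finset.exists_subset_card_eq h5
    obtain ⟨e0, he0, he0c, c, hc⟩ := hX S0 (by
      intro v hv
      obtain ⟨x, hx, rfl⟩ := Finset.mem_image.mp (hS0 hv)
      exact hS x hx) hS0c
    have hsec : ∀ v ∈ e0, ∃ x ∈ S, x.1 = v := fun v hv => by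
      obtain ⟨x, hx, hx2⟩ := Finset.mem_image.mp (hS0 (he0 hv))
      exact ⟨x, hx, hx2⟩
    choose! g hg1 hg2 using hsec
    have hginj : Set.InjOn g (e0 : Set V) := by
      intro a ha b hb hab
      rw [← hg2 a ha, ← hg2 b hb, hab]
    refine ⟨e0.image g, ?_, ?_, Or.inr ⟨⟨c, ?_⟩, ?_⟩⟩
    · intro x hx
      obtain ⟨v, hv, rfl⟩ := Finset.mem_image.mp hx
      exact hg1 v hv
    · rw [Finset.card_image_of_injOn hginj, he0c]
    · have : (e0.image g).image Prod.fst = e0 := by
        rw [Finset.image_image]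
        ext v
        simp only [Finset.mem_image, Function.comp]
        constructor
        · rintro ⟨u, hu, rfl⟩
          rw [hg2 u hu]; exact hu
        · intro hv
          exact ⟨v, hv, hg2 v hv⟩
      rw [this]; exact hc
    · intro x hx y hy hxy
      obtain ⟨u, hu, rfl⟩ := Finset.mem_image.mp (Finset.mem_coe.mp hx)
      obtain ⟨v, hv, rfl⟩ := Finset.mem_image.mp (Finset.mem_coe.mp hy)
      rw [hg2 u hu, hg2 v hv] at hxy
      rw [hxy]

/-- the lower bound, with the length of the path -/
theorem lower_blow (k : ℕ) (hk : 3 ≤ k) : ∃ c1 : ℝ, 0 < c1 ∧ ∃ T1 : ℕ,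
    ∀ s : ℕ, k + 1 ≤ s → ∀ t : ℕ, T1 ≤ t → ∀ n : ℕ, (n : ℝ) ≤ c1 * s * (t : ℝ) ^ (k - 1) →
          ¬ (∀ H : Set (Finset (Fin n)),
            (∃ v : Fin (s + k - 1) → Fin n, Function.Injective v ∧
              ∀ i : Fin s, (win s k i.val).image v ∈ H) ∨
            (∃ S : Finset (Fin n), S.card = t ∧
              ∀ e : Finset (Fin n), e ⊆ S → e.card = k → e ∉ H)) := by
  obtain ⟨c0, hc0, T, V, Cor, h1, h2, hX⟩ := data k hk
  have hk1 : (0:ℝ) < ((k - 1 : ℕ) : ℝ) := by
    have : 0 < k - 1 := by omega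
    exact_mod_cast this
  have hkR : (0:ℝ) < k := by
    have : 0 < k := by omega
    exact_mod_cast this
  refine ⟨c0 / (((k - 1 : ℕ) : ℝ) ^ (k - 1) * (2 * k)), by positivity, (k - 1) * (T + 1) + 1, ?_⟩
  intro s hs t ht n hn hcon
  set t0 := (t - 1) / (k - 1) + 1 with ht0
  have hk0 : 0 < k - 1 := by omega
  have hdm := Nat.div_add_mod (t - 1) (k - 1)
  have hml := Nat.mod_lt (t - 1) hk0
  have ht1 : (k - 1) * (t0 - 1) < t := by
    rw [ht0, Nat.add_sub_cancel]
    omega
  have ht2 : t ≤ (k - 1) * t0 := by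
    rw [ht0, mul_add, mul_one]
    omega
  have ht3 : T ≤ t0 := by
    have h5 : (k - 1) * (T + 1) < (k - 1) * t0 := by omega
    have := lt_of_mul_lt_mul_left h5 (Nat.zero_le _)
    omega
  have ht4 : 1 ≤ t0 := by rw [ht0]; exact Nat.le_add_left 1 _
  obtain ⟨X, hXc, hXe⟩ := hX t0 ht3
  set b := (s - 1) / k with hb
  have hb1 : s ≤ 2 * k * b := by
    have hd := Nat.div_add_mod (s - 1) k
    have hm := Nat.mod_lt (s - 1) (show 0 < k by omega)
    rw [← hb] at hd
    have hb0 : 1 ≤ b := by
      rw [hb, Nat.le_div_iff_mul_le (by omega)]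
      omega
    have h6 : k ≤ k * b := Nat.le_mul_of_pos_right _ hb0
    have h7 : 2 * k * b = k * b + k * b := by ring
    omega
  have hbR : (s:ℝ) ≤ 2 * k * b := by exact_mod_cast hb1
  have hnX : n ≤ (X ×ˢ Finset.range b).card := by
    rw [Finset.card_product, Finset.card_range]
    have h8 : (n:ℝ) ≤ (X.card * b : ℕ) := by
      push_cast
      refine hn.trans ?_
      have h9 : (t:ℝ) ^ (k - 1) ≤ ((k - 1 : ℕ) : ℝ) ^ (k - 1) * (t0:ℝ) ^ (k - 1) := by
        rw [← mul_pow]
        apply pow_le_pow_left₀ (Nat.cast_nonneg _)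
        exact_mod_cast ht2
      have h10 : (s:ℝ) * (t:ℝ) ^ (k - 1) ≤
          (2 * k * b) * (((k - 1 : ℕ) : ℝ) ^ (k - 1) * (t0:ℝ) ^ (k - 1)) :=
        mul_le_mul hbR h9 (by positivity) (by positivity)
      have h11 : c0 * (t0:ℝ) ^ (k - 1) * b ≤ X.card * b :=
        mul_le_mul_of_nonneg_right hXc (Nat.cast_nonneg _)
      refine le_trans ?_ h11
      rw [mul_assoc, div_mul_eq_mul_div, div_le_iff₀ (by positivity)]
      have h12 := mul_le_mul_of_nonneg_left h10 hc0.le
      linarith
    exact_mod_cast h8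
  obtain ⟨X', hX', hX'c⟩ := Finset.exists_subset_card_eq hnX
  set E := X'.equivFinOfCardEq hX'c with hE
  set φ : Fin n → V × ℕ := fun i => (E.symm i).1 with hφ
  have hφinj : Function.Injective φ := by
    intro a b hab
    exact E.symm.injective (Subtype.ext hab)
  have hφX : ∀ i, φ i ∈ X ×ˢ Finset.range b := fun i => hX' (E.symm i).2
  rcases hcon {e | BE Cor (e.image φ)} with ⟨v, hv, hv2⟩ | ⟨S, hSc, hS⟩
  · refine no_path_blow Cor h1 h2 hk (by omega) hb (fun j => φ (v j)) (hφinj.comp hv)
      (fun j => ?_) (fun i hi => ?_)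
    · have := hφX (v j)
      rw [Finset.mem_product, Finset.mem_range] at this
      exact this.2
    · have := hv2 ⟨i, hi⟩
      have h13 : BE Cor (((win s k i).image v).image φ) := this
      rw [Finset.image_image] at h13
      exact h13
  · obtain ⟨e', he', he'c, hc⟩ := indep_blow Cor hk ht1 ht4 X hXe (S.image φ) (by
      intro x hx
      obtain ⟨i, -, rfl⟩ := Finset.mem_image.1 hx
      exact (Finset.mem_product.mp (hφX i)).1) (by rw [Finset.card_image_of_injective _ hφinj, hSc])
    have himg : (S.filter (fun i => φ i ∈ e')).image φ = e' := by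
      ext x
      rw [Finset.mem_image]
      constructor
      · rintro ⟨i, hi, rfl⟩
        exact (Finset.mem_filter.1 hi).2
      · intro hx
        obtain ⟨i, hi, rfl⟩ := Finset.mem_image.1 (he' hx)
        exact ⟨i, Finset.mem_filter.2 ⟨hi, hx⟩, rfl⟩
    apply hS (S.filter (fun i => φ i ∈ e')) (Finset.filter_subset _ _)
    · rw [← Finset.card_image_of_injective _ hφinj, himg, he'c]
    · show BE Cor ((S.filter (fun i => φ i ∈ e')).image φ)
      rw [himg]; exact hc

end Pool.Agent.KS6_88.TP
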